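import Pool.Agent.R597.Scft
import Pool.Agent.R597.Wo

/-!
# The strong countable fan tightness game and forcing

Every notion of forcing preserves the statement that player II has a winning strategy in the
strong countable fan tightness game at a point of a topological space. (Properness is not needed.)
The ground model is a transitive model `M` of ZFC, the notion of forcing is in `M`, and `ext M G`
is the generic extension `M[G]`; the theorem `Pool.Agent.R597.isZFC_ext` says that it is a
transitive model of ZFC.

The proof: let `s` be a winning strategy of II in `M`. If `t` is a finite sequence of legal moves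
in `M` and `A` is a legal move in `M[G]`, then there is a legal move `B` in `M` with
`s(t, B) ∈ A`. Otherwise the set `Y ∈ M` of all points that are not of the form `s(t, B)` contains
`A`, so that `Y` is a legal move, and `s(t, Y) ∈ Y`, a contradiction. So II can simulate in `M[G]`
the game in `M`; if the answers miss a neighbourhood `U` of `x`, then the tree in `M` of the
sequences of legal moves with all answers outside `U` has a branch in `M[G]`, hence also a branch
in `M`, a contradiction.
-/

set_option autoImplicit false

namespace Pool.Agent.Results.MP_07c8c2_lc.FanTightnessForcing

open Pool.Agent.W868 Pool.Agent.W868.GM Pool.Agent.Y588 Pool.Agent.R597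

/-- Every notion of forcing preserves that player II wins the strong countable fan tightness game
on a space. -/
theorem result (M : Set ZFSet.{0}) (hM : IsZFC M) (P Le : ZFSet.{0}) (hP : IsForcing M P Le)
    (G : ZFSet.{0}) (hG : IsGeneric M P Le G) (X τ : ZFSet.{0}) (hX : IsTop M X τ)
    (h : ∀ x ∈ X, IIWins M X τ x) : ∀ x ∈ X, IIWins (ext M G) X τ x := fun x hx =>
  iiWins_up hM (isZFC_ext hM hP hG) (sub_ext hM.toIsZF hP hG) hX.set_mem hX.top_mem
    (hM.trans _ hX.set_mem _ hx) hX.sub (h x hx)

end Pool.Agent.Results.MP_07c8c2_lc.FanTightnessForcing
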